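import Mathlib

/-!
Shift radix systems with non-real unimodular eigenvalues: for every `d ≥ 4` there is a parameter in
`E_d^(C)`, whose only unimodular roots are the simple roots `i` and `-i`, with an orbit which is
not ultimately periodic.
-/

set_option autoImplicit false

open Polynomial

namespace Pool.Agent.Results.MP_e7d72a_nt.Resonance

/-- The shift radix system `(z_0, …, z_{d-1}) ↦ (z_1, …, z_{d-1}, -⌊r z⌋)`. -/
noncomputable def tau {d : ℕ} (r : Fin d → ℝ) (z : Fin d → ℤ) : Fin d → ℤ :=
  fun i => if h : (i : ℕ) + 1 < d then z ⟨i + 1, h⟩ else -⌊∑ j, r j * (z j : ℝ)⌋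

/-- The polynomial `X^d + r_{d-1} X^{d-1} + … + r_0`, over the complex numbers. -/
noncomputable def chi {d : ℕ} (r : Fin d → ℝ) : ℂ[X] :=
  X ^ d + ∑ j : Fin d, C (r j : ℂ) * X ^ (j : ℕ)

/-- The set `E_d`: all complex roots of `chi r` lie in the open unit disc. -/
def E (d : ℕ) : Set (Fin d → ℝ) := {r | ∀ w : ℂ, (chi r).IsRoot w → ‖w‖ < 1}

/-- The set `E_d^(C)`: points of the closure of `E_d` with a non-real root of modulus one. -/
def EC (d : ℕ) : Set (Fin d → ℝ) :=
  {r | r ∈ closure (E d) ∧ ∃ w : ℂ, (chi r).IsRoot w ∧ w.im ≠ 0 ∧ ‖w‖ = 1}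

/-- The set `D_d`: every orbit of `tau r` is ultimately periodic. -/
def D (d : ℕ) : Set (Fin d → ℝ) :=
  {r | ∀ z : Fin d → ℤ, ∃ n p : ℕ, 1 ≤ p ∧ (tau r)^[n + p] z = (tau r)^[n] z}

/-- the coefficients, as a function on the natural numbers -/
noncomputable def coef (m k : ℕ) : ℝ :=
  if k = m then 9 / 10 else if k = m + 1 then 13 / 10 else if k = m + 2 then 19 / 10
    else if k = m + 3 then 13 / 10 else 0

theorem sum_coef {R : Type*} [Field R] [Algebra ℝ R] (m : ℕ) (f : ℕ → R) :
    ∑ j : Fin (m + 4), algebraMap ℝ R (coef m j) * f j =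
      algebraMap ℝ R (9 / 10) * f m + algebraMap ℝ R (13 / 10) * f (m + 1)
        + algebraMap ℝ R (19 / 10) * f (m + 2) + algebraMap ℝ R (13 / 10) * f (m + 3) := by
  rw [Fin.sum_univ_eq_sum_range (fun k => algebraMap ℝ R (coef m k) * f k) (m + 4)]
  rw [Finset.sum_range_succ, Finset.sum_range_succ, Finset.sum_range_succ, Finset.sum_range_succ]
  have h0 : ∑ k ∈ Finset.range m, algebraMap ℝ R (coef m k) * f k = 0 := by
    apply Finset.sum_eq_zero
    intro k hk
    have hk' := Finset.mem_range.mp hk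
    have : coef m k = 0 := by
      unfold coef
      rw [if_neg (by omega), if_neg (by omega), if_neg (by omega), if_neg (by omega)]
    rw [this]; simp
  have h1 : coef m m = 9 / 10 := by simp [coef]
  have h2 : coef m (m + 1) = 13 / 10 := by simp [coef]
  have h3 : coef m (m + 2) = 19 / 10 := by simp [coef]
  have h4 : coef m (m + 3) = 13 / 10 := by simp [coef]
  rw [h0, h1, h2, h3, h4]; ring

theorem eval_chi {d : ℕ} (r : Fin d → ℝ) (w : ℂ) :
    (chi r).eval w = w ^ d + ∑ j : Fin d, (r j : ℂ) * w ^ (j : ℕ) := by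
  simp [chi, eval_finsetSum]

theorem chi_coef (m : ℕ) : chi (fun j : Fin (m + 4) => coef m j) =
    X ^ m * (X ^ 2 + 1) * (X ^ 2 + C (13 / 10) * X + C (9 / 10)) := by
  apply Polynomial.funext
  intro w
  rw [eval_chi]
  have := sum_coef (R := ℂ) m (fun k => w ^ k)
  simp only [Complex.coe_algebraMap] at this
  rw [this]
  simp only [eval_mul, eval_add, eval_pow, eval_X, eval_C, eval_one]
  push_cast
  ring

theorem small_root (w : ℂ) (h : w ^ 2 + 13 / 10 * w + 9 / 10 = 0) : ‖w‖ < 1 := by
  have hre := congrArg Complex.re h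
  have him := congrArg Complex.im h
  simp [pow_two] at hre him
  have hn : ‖w‖ ^ 2 = w.re ^ 2 + w.im ^ 2 := by
    rw [Complex.sq_norm, Complex.normSq_apply]; ring
  have hlt : ‖w‖ ^ 2 < 1 := by
    rw [hn]
    have h2 : w.im * (2 * w.re + 13 / 10) = 0 := by linarith
    rcases mul_eq_zero.mp h2 with h3 | h3
    · exfalso
      rw [h3] at hre
      nlinarith [sq_nonneg (w.re + 13 / 20)]
    · have : w.re = -13 / 20 := by linarith
      rw [this] at hre ⊢
      nlinarith
  have := norm_nonneg w
  nlinarith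

theorem root_cases (m : ℕ) (w : ℂ) (h : (chi (fun j : Fin (m + 4) => coef m j)).IsRoot w) :
    ‖w‖ < 1 ∨ w = Complex.I ∨ w = -Complex.I := by
  rw [chi_coef, IsRoot] at h
  simp only [eval_mul, eval_add, eval_pow, eval_X, eval_C, eval_one] at h
  rcases mul_eq_zero.mp h with h1 | h1
  · rcases mul_eq_zero.mp h1 with h2 | h2
    · left
      have : w = 0 := pow_eq_zero_iff' .. |>.mp h2 |>.1
      rw [this]; simp
    · right
      have : (w - Complex.I) * (w + Complex.I) = 0 := by
        linear_combination h2 - Complex.I_sq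
      rcases mul_eq_zero.mp this with h3 | h3
      · left; linear_combination h3
      · right; linear_combination h3
  · left; exact small_root w h1

theorem mem_closure_E {d : ℕ} (r : Fin d → ℝ) (h : ∀ w : ℂ, (chi r).IsRoot w → ‖w‖ ≤ 1) :
    r ∈ closure (E d) := by
  let g : ℝ → (Fin d → ℝ) := fun t j => t ^ (d - j) * r j
  have hg : Continuous g := by
    refine continuous_pi fun j => ?_
    fun_prop
  have h1 : g 1 = r := by funext j; simp [g]
  have hmem : ∀ t ∈ Set.Ioo (0 : ℝ) 1, g t ∈ E d := by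
    intro t ht w hw
    have ht0 : (t : ℂ) ≠ 0 := by exact_mod_cast ht.1.ne'
    have hroot : (chi r).IsRoot (w / t) := by
      rw [IsRoot, eval_chi] at hw ⊢
      have : (w / t) ^ d + ∑ j : Fin d, (r j : ℂ) * (w / t) ^ (j : ℕ) =
          (w ^ d + ∑ j : Fin d, ((g t j : ℝ) : ℂ) * w ^ (j : ℕ)) / (t : ℂ) ^ d := by
        rw [add_div, Finset.sum_div, div_pow]
        congr 1
        refine Finset.sum_congr rfl fun j _ => ?_
        have hj : d = (d - j) + j := by have := j.2; omega
        have hp : (t : ℂ) ^ d = (t : ℂ) ^ (d - j) * (t : ℂ) ^ (j : ℕ) := by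
          rw [← pow_add, ← hj]
        rw [hp]
        simp only [g]
        push_cast
        rw [div_pow]
        field_simp
      rw [this, hw]; simp
    have := h _ hroot
    rw [norm_div, Complex.norm_real, Real.norm_eq_abs, abs_of_pos ht.1, div_le_one ht.1] at this
    exact lt_of_le_of_lt this ht.2
  have hcl : (1 : ℝ) ∈ closure (Set.Ioo (0 : ℝ) 1) := by
    rw [closure_Ioo (by norm_num)]; simp
  rw [← h1]
  exact map_mem_closure hg hcl hmem

/-- the unbounded orbit -/
def seq (k : ℕ) : ℤ :=
  if k % 8 = 0 then 0 else if k % 8 = 1 then -(k / 8 : ℕ) else if k % 8 = 2 then -3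
  else if k % 8 = 3 then 2 + (k / 8 : ℕ) else if k % 8 = 4 then 4
  else if k % 8 = 5 then -5 - (k / 8 : ℕ) else if k % 8 = 6 then -1 else 4 + (k / 8 : ℕ)

theorem seq_rec (k : ℕ) :
    0 ≤ 10 * seq (k + 4) + 13 * seq (k + 3) + 19 * seq (k + 2) + 13 * seq (k + 1) + 9 * seq k ∧
    10 * seq (k + 4) + 13 * seq (k + 3) + 19 * seq (k + 2) + 13 * seq (k + 1) + 9 * seq k < 10 := by
  obtain ⟨q, s, hs, rfl⟩ : ∃ q s, s < 8 ∧ k = 8 * q + s := ⟨k / 8, k % 8, by omega, by omega⟩
  have e0 : seq (8 * q + 0) = 0 := by unfold seq; split_ifs <;> omega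
  have e1 : seq (8 * q + 1) = -q := by unfold seq; split_ifs <;> omega
  have e2 : seq (8 * q + 2) = -3 := by unfold seq; split_ifs <;> omega
  have e3 : seq (8 * q + 3) = 2 + q := by unfold seq; split_ifs <;> omega
  have e4 : seq (8 * q + 4) = 4 := by unfold seq; split_ifs <;> omega
  have e5 : seq (8 * q + 5) = -5 - q := by unfold seq; split_ifs <;> omega
  have e6 : seq (8 * q + 6) = -1 := by unfold seq; split_ifs <;> omega
  have e7 : seq (8 * q + 7) = 4 + q := by unfold seq; split_ifs <;> omega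
  have e8 : seq (8 * q + 8) = 0 := by unfold seq; split_ifs <;> omega
  have e9 : seq (8 * q + 9) = -q - 1 := by unfold seq; split_ifs <;> omega
  have e10 : seq (8 * q + 10) = -3 := by unfold seq; split_ifs <;> omega
  have e11 : seq (8 * q + 11) = 3 + q := by unfold seq; split_ifs <;> omega
  interval_cases s <;>
    simp only [add_assoc, Nat.reduceAdd, e0, e1, e2, e3, e4, e5, e6, e7, e8, e9, e10, e11] <;>
    omega

theorem tau_seq (m n : ℕ) :
    tau (fun j : Fin (m + 4) => coef m j) (fun j => seq (n + j)) =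
      fun j : Fin (m + 4) => seq (n + 1 + j) := by
  funext i
  unfold tau
  split_ifs with h
  · simp only; congr 1; omega
  · have hi : (i : ℕ) = m + 3 := by have := i.2; omega
    have := sum_coef (R := ℝ) m (fun k => (seq (n + k) : ℝ))
    simp only [Algebra.algebraMap_self, RingHom.id_apply] at this
    rw [this, hi, neg_eq_iff_eq_neg, Int.floor_eq_iff]
    obtain ⟨h1, h2⟩ := seq_rec (n + m)
    have e1 : n + (m + 1) = n + m + 1 := by ring
    have e2 : n + (m + 2) = n + m + 2 := by ring
    have e3 : n + (m + 3) = n + m + 3 := by ring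
    have e4 : n + 1 + (m + 3) = n + m + 4 := by ring
    rw [e1, e2, e3, e4]
    have h1' : (0 : ℝ) ≤ 10 * seq (n + m + 4) + 13 * seq (n + m + 3) + 19 * seq (n + m + 2)
      + 13 * seq (n + m + 1) + 9 * seq (n + m) := by exact_mod_cast h1
    have h2' : (10 : ℝ) * seq (n + m + 4) + 13 * seq (n + m + 3) + 19 * seq (n + m + 2)
      + 13 * seq (n + m + 1) + 9 * seq (n + m) < 10 := by exact_mod_cast h2
    push_cast
    constructor <;> linarith

theorem iter_seq (m n : ℕ) :
    (tau (fun j : Fin (m + 4) => coef m j))^[n] (fun j => seq j) =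
      fun j : Fin (m + 4) => seq (n + j) := by
  induction n with
  | zero => simp
  | succ n ih => rw [Function.iterate_succ_apply', ih, tau_seq]

theorem not_mem_D (m : ℕ) : (fun j : Fin (m + 4) => coef m j) ∉ D (m + 4) := by
  intro h
  obtain ⟨n, p, hp, hper⟩ := h (fun j => seq j)
  set T := tau (fun j : Fin (m + 4) => coef m j) with hT
  have hall : ∀ c k : ℕ, T^[n + k + c * p] (fun j => seq j) = T^[n + k] (fun j => seq j) := by
    intro c k
    induction c with
    | zero => simp
    | succ c ih =>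
      have e1 : n + k + (c + 1) * p = (k + c * p) + (n + p) := by ring
      have e2 : n + k + c * p = (k + c * p) + n := by ring
      rw [e1, Function.iterate_add_apply, hper, ← Function.iterate_add_apply, ← e2, ih]
  have := hall 8 (7 * n + 1)
  rw [hT, iter_seq, iter_seq] at this
  have h0 := congrFun this ⟨0, by omega⟩
  simp only [add_zero] at h0
  unfold seq at h0
  split_ifs at h0 <;> omega

/-- For every `d ≥ 4` there is a parameter `r` in `E_d^(C)`, such that the only roots of modulus
one of `chi r` are `i` and `-i`, both simple, and some orbit of `tau r` is not ultimately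
periodic. -/
theorem result (d : ℕ) (hd : 4 ≤ d) :
    ∃ r ∈ EC d, r ∉ D d ∧ ∀ w : ℂ, (chi r).IsRoot w → ‖w‖ = 1 →
      (w = Complex.I ∨ w = -Complex.I) ∧ (chi r).rootMultiplicity w = 1 := by
  obtain ⟨m, rfl⟩ : ∃ m, d = m + 4 := ⟨d - 4, by omega⟩
  refine ⟨fun j => coef m j, ⟨mem_closure_E _ ?_, Complex.I, ?_, by simp, by simp⟩, not_mem_D m, ?_⟩
  · intro w hw
    rcases root_cases m w hw with h | h | h
    · exact h.le
    · rw [h]; simp
    · rw [h]; simp
  · rw [chi_coef, IsRoot]
    simp
  · intro w hw hn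
    have hc : w = Complex.I ∨ w = -Complex.I := by
      rcases root_cases m w hw with h | h
      · exact absurd hn h.ne
      · exact h
    refine ⟨hc, ?_⟩
    have hw2 : w ^ 2 + 1 = 0 := by
      rcases hc with h | h <;> rw [h] <;> simp
    have hw0 : w ≠ 0 := by
      rintro rfl; simp at hw2
    have hq : w ^ 2 + 13 / 10 * w + 9 / 10 ≠ 0 := fun h => (small_root w h).ne hn
    have hfac : chi (fun j : Fin (m + 4) => coef m j) =
        (X - C w) * (X ^ m * (X + C w) * (X ^ 2 + C (13 / 10) * X + C (9 / 10))) := by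
      rw [chi_coef]
      have : (X ^ 2 + 1 : ℂ[X]) = (X - C w) * (X + C w) := by
        have h1 : (C w : ℂ[X]) ^ 2 + 1 = 0 := by
          rw [← C_pow, ← C_1, ← C_add, hw2, C_0]
        linear_combination h1
      rw [this]; ring
    have hne : ¬ (X ^ m * (X + C w) * (X ^ 2 + C (13 / 10) * X + C (9 / 10)) : ℂ[X]).IsRoot w := by
      rw [IsRoot]
      simp only [eval_mul, eval_add, eval_pow, eval_X, eval_C]
      refine mul_ne_zero (mul_ne_zero (pow_ne_zero _ hw0) ?_) hq
      intro h; apply hw0; linear_combination h / 2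
    have hne0 : (X ^ m * (X + C w) * (X ^ 2 + C (13 / 10) * X + C (9 / 10)) : ℂ[X]) ≠ 0 := by
      intro h; rw [h] at hne; simp at hne
    rw [hfac, rootMultiplicity_mul (mul_ne_zero (X_sub_C_ne_zero w) hne0),
      rootMultiplicity_X_sub_C_self, rootMultiplicity_eq_zero hne]

end Pool.Agent.Results.MP_e7d72a_nt.Resonance
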